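import Mathlib
import Pool.Agent.H115Z.Cov.Main

set_option autoImplicit false

namespace Pool.Agent.Results.MP_fd7e30_al.TwoThirds

/-- If `n` cosets of infinite-index subgroups cover the ball of radius `r` of a group generated by
the finite set `S`, then `r ^ 2 ≤ 384 (2 |S| + 1) ^ 2 n ^ 3`. -/
theorem result :
    ∀ (G : Type) [Group G] (S : Finset G), Subgroup.closure (S : Set G) = ⊤ →
      ∀ (r n : ℕ) (g : Fin n → G) (H : Fin n → Subgroup G),
        (∀ i, (H i).index = 0) →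
        (∀ l : List G, l.length ≤ r → (∀ x ∈ l, x ∈ S ∨ x⁻¹ ∈ S) →
          ∃ i, (g i)⁻¹ * l.prod ∈ H i) →
        r ^ 2 ≤ 384 * (2 * S.card + 1) ^ 2 * n ^ 3 :=
  fun _ _ S hS r n g H hH hc => Pool.Agent.H115Z.Cov.main S hS r n g H hH hc

end Pool.Agent.Results.MP_fd7e30_al.TwoThirds
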